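import Pool.Agent.K9h79.TSP.Main

/-!
# Universal `ℵ`-injectivity is not a three-space property

MP_faf25a_an. There is a Banach space `X` with a closed subspace `Y` such that `Y` is universally
`ℵ₁`-injective (universally separably injective), `X / Y` is isomorphic to `ℓ_∞`, and `X` is not
universally `ℵ₁`-injective. So the answer to the question is negative, in ZFC. More generally
universal `κ`-injectivity is not a three-space property for all uncountable `κ < 𝔠`, and for `κ = 𝔠`
if `𝔠` is regular.

Construction. Let `K` be the set of the finite sequences of elements of `κ × {0, 1}` (`κ` regular,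
`ℵ₁ ≤ κ ≤ 𝔠`), with the topology in which the sets `V_β(t)` of `t` and of all the sequences which
extend some `t⌢(α, b)`, `α ≥ β`, are a base of neighbourhoods of `t`. Fewer than `κ` neighbourhoods
of a point have a common neighbourhood, and so the bounded continuous functions on `K` are a
universally `κ`-injective space. A function on `K` can jump at a point `t`, between the sequences
which extend some `t⌢(α, 1)` and the others. Let `z_ξ`, `ξ ∈ 2^ω`, be the Rademacher functionals on
`ℓ_∞ = ℓ_∞(⊔_n {±1}^(2^n))`: the limit of the averages of `f r_ξ`, where `r_ξ` is the coordinate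
`ξ|n` on the `n`-th block. By Bessel's inequality only countably many of the `z_ξ(f)` are not zero,
so for each `f` there are bounded functions `u` on `K` with the jump `z_{ξ(t)}(f)` at every `t`,
where `ξ(t)` are different points of `2^ω`. The pairs `(f, u)` form a twisted sum of `C_b(K)` and
`ℓ_∞`. It is not trivial: for a bounded lifting `f ↦ u_f` one chooses inductively points `t_j` and
signs `σ_j` such that `u_f` is large near `t_m` for the imaginary part `f` of the Riesz product
`∏ (1 + i σ_j r_{ξ(t_j)} / √m)`, which is bounded. To obtain a space which is not universally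
separably injective take such functions `u` for continuum many almost disjoint copies of the
blocks: an extension of the operator `f ↦ (f, 0)` on `c₀` to `ℓ_∞` would be a lifting on one of them.
-/

set_option autoImplicit false

namespace Pool.Agent.Results.MP_faf25a_an.ThreeSpaceFails

open Cardinal

/-- The real Banach space `E` is universally `κ`-injective: for every Banach space `W` and every
closed subspace `S` of `W` whose density character is less than `κ` (that is, `S` has a dense subset
of cardinality less than `κ`), every operator `t : S → E` has an extension `T : W → E`. -/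
def UnivInjective (κ : Cardinal.{0}) (E : Type) [NormedAddCommGroup E] [NormedSpace ℝ E] : Prop :=
  ∀ (W : Type) [NormedAddCommGroup W] [NormedSpace ℝ W] [CompleteSpace W] (S : Submodule ℝ W),
    IsClosed (S : Set W) → (∃ D : Set S, Dense D ∧ #D < κ) →
    ∀ t : S →L[ℝ] E, ∃ T : W →L[ℝ] E, ∀ x : S, T x = t x

/-- Universal `κ`-injectivity is a three-space property: if `Y` is a closed subspace of the Banach
space `X` and both `Y` and `X / Y` are universally `κ`-injective then so is `X`. -/
def ThreeSpace (κ : Cardinal.{0}) : Prop :=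
  ∀ (X : Type) [NormedAddCommGroup X] [NormedSpace ℝ X] [CompleteSpace X] (Y : Submodule ℝ X)
    [IsClosed (Y : Set X)], UnivInjective κ Y → UnivInjective κ (X ⧸ Y) → UnivInjective κ X

/-- There is an infinite cardinal `κ` such that universal `κ`-injectivity is not a three-space
property. In fact this holds for all uncountable `κ < 𝔠`, and for `κ = 𝔠` if it is regular; and for
every uncountable regular `κ ≤ 𝔠` there is a Banach space `X` which is not universally
`ℵ₁`-injective and has a closed subspace `Y` such that `Y` is universally `κ`-injective and `X / Y` is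
universally `μ`-injective for all `μ`. -/
theorem result :
    (¬ ∀ κ : Cardinal.{0}, ℵ₀ ≤ κ → ThreeSpace κ) ∧
    (∀ κ : Cardinal.{0}, ℵ₀ < κ → (κ < 𝔠 ∨ κ = 𝔠 ∧ κ.IsRegular) → ¬ ThreeSpace κ) ∧
    ∀ κ : Cardinal.{0}, ℵ₀ < κ → κ ≤ 𝔠 → κ.IsRegular →
      ∃ (X : Type) (_ : NormedAddCommGroup X) (_ : NormedSpace ℝ X) (_ : CompleteSpace X)
        (Y : Submodule ℝ X) (_ : IsClosed (Y : Set X)),
        UnivInjective κ Y ∧ (∀ μ : Cardinal.{0}, UnivInjective μ (X ⧸ Y)) ∧
          ¬ UnivInjective ℵ₁ X := by
  have main : ∀ κ : Cardinal.{0}, ℵ₀ < κ → κ ≤ 𝔠 → κ.IsRegular →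
      ∃ (X : Type) (_ : NormedAddCommGroup X) (_ : NormedSpace ℝ X) (_ : CompleteSpace X)
        (Y : Submodule ℝ X) (_ : IsClosed (Y : Set X)),
        UnivInjective κ Y ∧ (∀ μ : Cardinal.{0}, UnivInjective μ (X ⧸ Y)) ∧
          ¬ UnivInjective ℵ₁ X := by
    intro κ h0 hc hr
    obtain ⟨ξ, hξ⟩ := Pool.Agent.K9h79.TSP.exists_inj hc
    have hbd := Pool.Agent.K9h79.TSP.exists_bd hr
    have hne : Nonempty κ.ord.ToType := by
      rw [← Cardinal.mk_ne_zero_iff, Cardinal.mk_ord_toType]
      exact (Cardinal.aleph0_pos.trans h0).ne'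
    have hY := Pool.Agent.K9h79.TSP.isClosed_YY ξ
    exact ⟨Pool.Agent.K9h79.TSP.XT ξ, inferInstance, inferInstance,
      Pool.Agent.K9h79.TSP.complete_XT hbd h0 ξ, Pool.Agent.K9h79.TSP.YY ξ, hY,
      Pool.Agent.K9h79.TSP.univ_YY hbd ξ,
      fun μ => Pool.Agent.K9h79.TSP.univ_quot hbd h0 ξ hξ μ,
      Pool.Agent.K9h79.TSP.not_univ_XX ξ hξ⟩
  have mono : ∀ {κ κ' : Cardinal.{0}}, κ ≤ κ' → ∀ (E : Type) [NormedAddCommGroup E]
      [NormedSpace ℝ E], UnivInjective κ' E → UnivInjective κ E := by
    intro κ κ' h E _ _ hE W _ _ _ S hS ⟨D, hD1, hD2⟩ t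
    exact hE W S hS ⟨D, hD1, hD2.trans_le h⟩ t
  have second : ∀ κ : Cardinal.{0}, ℵ₀ < κ → (κ < 𝔠 ∨ κ = 𝔠 ∧ κ.IsRegular) → ¬ ThreeSpace κ := by
    intro κ h0 h hT
    obtain ⟨κ', h1, h2, h3⟩ : ∃ κ' : Cardinal.{0}, κ ≤ κ' ∧ κ' ≤ 𝔠 ∧ κ'.IsRegular := by
      rcases h with h | ⟨h, hr⟩
      · exact ⟨Order.succ κ, Order.le_succ κ, Order.succ_le_of_lt h,
          Cardinal.isRegular_succ h0.le⟩
      · exact ⟨κ, le_rfl, h.le, hr⟩
    obtain ⟨X, i1, i2, i3, Y, i4, hY, hQ, hX⟩ := main κ' (h0.trans_le h1) h2 h3
    apply hX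
    have h1' : ℵ₁ ≤ κ := by
      rw [← Cardinal.succ_aleph0]
      exact Order.succ_le_of_lt h0
    exact mono h1' X (hT X Y (mono h1 _ hY) (hQ κ))
  refine ⟨fun h => ?_, second, main⟩
  have h1 : (ℵ₁ : Cardinal.{0}) < 𝔠 ∨ (ℵ₁ : Cardinal.{0}) = 𝔠 ∧ (ℵ₁ : Cardinal.{0}).IsRegular := by
    rcases Cardinal.aleph_one_le_continuum.lt_or_eq with h | h
    · exact Or.inl h
    · exact Or.inr ⟨h, Cardinal.isRegular_aleph_one⟩
  exact second ℵ₁ Cardinal.aleph0_lt_aleph_one h1 (h ℵ₁ Cardinal.aleph0_lt_aleph_one.le)

end Pool.Agent.Results.MP_faf25a_an.ThreeSpaceFails
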